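import Pool.Agent.W896.RK.Disc

/-!
# Parity checks: duality, a Plotkin bound
-/

set_option autoImplicit false

open Finset

namespace Pool.Agent.W896.HK

open Pool.Agent.W896.RK

theorem sg_pm (b c : Bool) : sg b c = 1 ∨ sg b c = -1 := by
  unfold sg; split_ifs <;> simp

theorem prod_pm {ι : Type} (s : Finset ι) (f : ι → ℝ) (h : ∀ i ∈ s, f i = 1 ∨ f i = -1) :
    ∏ i ∈ s, f i = 1 ∨ ∏ i ∈ s, f i = -1 := by
  classical
  induction s using Finset.induction_on with
  | empty => left; simp
  | insert a s ha ih =>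
    rw [prod_insert ha]
    have h1 := h a (mem_insert_self _ _)
    have h2 := ih (fun i hi => h i (mem_insert_of_mem hi))
    rcases h1 with h1 | h1 <;> rcases h2 with h2 | h2 <;> rw [h1, h2] <;> norm_num

/-- Product form of a sum over all bit vectors. -/
theorem sum_prod_bool {I : Type} [Fintype I] [DecidableEq I] (F : I → Bool → ℝ) :
    ∑ w : I → Bool, ∏ i, F i (w i) = ∏ i, (F i true + F i false) := by
  have h := Finset.prod_univ_sum (fun _ : I => (univ : Finset Bool)) F
  rw [Fintype.piFinset_univ] at h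
  rw [← h]
  refine prod_congr rfl (fun i _ => ?_)
  simp

/-- The sign of a triple. -/
def q (w s u : Bool) : ℝ := if (w && s && u) = true then -1 else 1

theorem q_false_left (s u : Bool) : q false s u = 1 := by simp [q]
theorem q_false_right (w s : Bool) : q w s false = 1 := by simp [q]
theorem q_true_left (s u : Bool) : q true s u = sg s u := by simp [q, sg]
theorem q_true_right (w s : Bool) : q w s true = sg w s := by simp [q, sg]

theorem prod_indicator {I : Type} [Fintype I] (χ : I → ℝ) (h : ∀ i, χ i = 1 ∨ χ i = -1)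
    [Decidable (∀ i, χ i = 1)] :
    ∏ i, (χ i + 1) = if ∀ i, χ i = 1 then (2 : ℝ) ^ Fintype.card I else 0 := by
  split_ifs with hc
  · rw [prod_congr rfl (fun i _ => by rw [hc i])]
    rw [prod_const, card_univ]; norm_num
  · push Not at hc
    obtain ⟨i, hi⟩ := hc
    refine prod_eq_zero (mem_univ i) ?_
    rcases h i with h1 | h1
    · exact absurd h1 hi
    · rw [h1]; norm_num

open Classical in
/-- The number of solutions of a system of parity checks and of its relations. -/
theorem dual {I J : Type} [Fintype I] [Fintype J] (M : I → J → Bool) :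
    (univ.filter (fun u : J → Bool => ∀ i, ∏ j, sg (M i j) (u j) = 1)).card *
      2 ^ Fintype.card I = 2 ^ Fintype.card J *
    (univ.filter (fun w : I → Bool => ∀ j, ∏ i, sg (w i) (M i j) = 1)).card := by
  have h1 : ∀ u : J → Bool, ∑ w : I → Bool, ∏ i, ∏ j, q (w i) (M i j) (u j) =
      if (∀ i, ∏ j, sg (M i j) (u j) = 1) then (2 : ℝ) ^ Fintype.card I else 0 := by
    intro u
    rw [sum_prod_bool (fun i b => ∏ j, q b (M i j) (u j))]
    rw [← prod_indicator (fun i => ∏ j, sg (M i j) (u j))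
      (fun i => prod_pm _ _ (fun j _ => sg_pm _ _))]
    refine prod_congr rfl (fun i _ => ?_)
    simp only [q_true_left, q_false_left, prod_const_one]
  have h2 : ∀ w : I → Bool, ∑ u : J → Bool, ∏ i, ∏ j, q (w i) (M i j) (u j) =
      if (∀ j, ∏ i, sg (w i) (M i j) = 1) then (2 : ℝ) ^ Fintype.card J else 0 := by
    intro w
    have h3 : ∀ u : J → Bool, ∏ i, ∏ j, q (w i) (M i j) (u j) =
        ∏ j, ∏ i, q (w i) (M i j) (u j) := fun u => prod_comm
    rw [sum_congr rfl (fun u _ => h3 u)]
    rw [sum_prod_bool (fun j b => ∏ i, q (w i) (M i j) b)]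
    rw [← prod_indicator (fun j => ∏ i, sg (w i) (M i j))
      (fun j => prod_pm _ _ (fun i _ => sg_pm _ _))]
    refine prod_congr rfl (fun j _ => ?_)
    simp only [q_true_right, q_false_right, prod_const_one]
  have h3 : ∑ u : J → Bool, ∑ w : I → Bool, ∏ i, ∏ j, q (w i) (M i j) (u j) =
      ∑ w : I → Bool, ∑ u : J → Bool, ∏ i, ∏ j, q (w i) (M i j) (u j) := sum_comm
  rw [sum_congr rfl (fun u _ => h1 u), sum_congr rfl (fun w _ => h2 w)] at h3
  rw [← sum_filter, ← sum_filter, sum_const, sum_const, nsmul_eq_mul, nsmul_eq_mul] at h3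
  have h4 : (((univ.filter (fun u : J → Bool => ∀ i, ∏ j, sg (M i j) (u j) = 1)).card *
      2 ^ Fintype.card I : ℕ) : ℝ) = ((2 ^ Fintype.card J *
    (univ.filter (fun w : I → Bool => ∀ j, ∏ i, sg (w i) (M i j) = 1)).card : ℕ) : ℝ) := by
    push_cast
    rw [h3]; ring
  exact_mod_cast h4

theorem dual_nat {I J : Type} [Fintype I] [Fintype J] (M : I → J → Bool) :
    Nat.card {u : J → Bool // ∀ i, ∏ j, sg (M i j) (u j) = 1} * 2 ^ Fintype.card I =
      2 ^ Fintype.card J * Nat.card {w : I → Bool // ∀ j, ∏ i, sg (w i) (M i j) = 1} := by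
  classical
  have h := dual M
  rw [Nat.card_eq_fintype_card (α := {u : J → Bool // ∀ i, ∏ j, sg (M i j) (u j) = 1}),
    Fintype.card_subtype,
    Nat.card_eq_fintype_card (α := {w : I → Bool // ∀ j, ∏ i, sg (w i) (M i j) = 1}),
    Fintype.card_subtype]
  exact h

open Classical in
/-- Few relations vanish on a large set of columns if the nonzero combinations of the rows have
weight close to one half. -/
theorem plotkin {I J : Type} [Fintype I] [Fintype J] (M : I → J → Bool) {a b : ℕ}
    (hb : b = a + 1)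
    (hM : ∀ w : I → Bool, (∃ i, w i = true) → 2 ^ b * Fintype.card J ≤
      2 ^ (b + 1) * (univ.filter (fun j => ∏ i, sg (w i) (M i j) ≠ 1)).card + Fintype.card J)
    (A : Finset J) (hA : Fintype.card J ≤ 2 ^ a * A.card) (hJ : 0 < Fintype.card J) :
    Nat.card {w : I → Bool // ∀ j ∈ A, ∏ i, sg (w i) (M i j) = 1} ≤ 2 ^ b := by
  rw [Nat.card_eq_fintype_card, Fintype.card_subtype]
  obtain ⟨W, hW⟩ : ∃ W, W = univ.filter (fun w : I → Bool => ∀ j ∈ A,
    ∏ i, sg (w i) (M i j) = 1) := ⟨_, rfl⟩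
  rw [← hW]
  have hmul : ∀ w w' : I → Bool, ∀ j, ∏ i, sg (xor (w i) (w' i)) (M i j) =
      (∏ i, sg (w i) (M i j)) * ∏ i, sg (w' i) (M i j) := by
    intro w w' j
    rw [← prod_mul_distrib]
    exact prod_congr rfl (fun i _ => sg_xor_left _ _ _)
  have hpm : ∀ (w : I → Bool) j, ∏ i, sg (w i) (M i j) = 1 ∨ ∏ i, sg (w i) (M i j) = -1 :=
    fun w j => prod_pm _ _ (fun i _ => sg_pm _ _)
  -- the total weight
  have h1 : ∑ w ∈ W, (univ.filter (fun j => ∏ i, sg (w i) (M i j) ≠ 1)).card =
      ∑ j, (W.filter (fun w => ∏ i, sg (w i) (M i j) ≠ 1)).card := by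
    simp only [card_filter]
    rw [sum_comm]
  have h2 : ∀ j, 2 * (W.filter (fun w => ∏ i, sg (w i) (M i j) ≠ 1)).card ≤ W.card := by
    intro j
    rcases (W.filter (fun w => ∏ i, sg (w i) (M i j) ≠ 1)).eq_empty_or_nonempty with h | ⟨w₁, h⟩
    · rw [h]; simp
    · rw [mem_filter] at h
      have h3 : (W.filter (fun w => ∏ i, sg (w i) (M i j) ≠ 1)).card ≤
          (W.filter (fun w => ¬ ∏ i, sg (w i) (M i j) ≠ 1)).card := by
        refine card_le_card_of_injOn (fun w i => xor (w i) (w₁ i)) ?_ ?_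
        · intro w hw
          rw [mem_coe, mem_filter] at hw
          rw [mem_coe, mem_filter]
          have h4 := hw.1
          have h5 := h.1
          rw [hW, mem_filter] at h4 h5
          refine ⟨?_, ?_⟩
          · rw [hW, mem_filter]
            refine ⟨mem_univ _, fun j' hj' => ?_⟩
            rw [hmul, h4.2 j' hj', h5.2 j' hj', one_mul]
          · push Not
            rw [hmul]
            have h6 := (hpm w j).resolve_left hw.2
            have h7 := (hpm w₁ j).resolve_left h.2
            rw [h6, h7]; norm_num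
        · intro w _ w' _ hww
          funext i
          have := congrFun hww i
          simp only at this
          cases h8 : w i <;> cases h9 : w' i <;> cases h10 : w₁ i <;> simp_all
      have h4 := card_filter_add_card_filter_not (s := W)
        (fun w => ∏ i, sg (w i) (M i j) ≠ 1)
      omega
  have h3 : ∀ j ∈ A, (W.filter (fun w => ∏ i, sg (w i) (M i j) ≠ 1)).card = 0 := by
    intro j hj
    rw [card_eq_zero, filter_eq_empty_iff]
    intro w hw
    rw [hW, mem_filter] at hw
    simp only [hw.2 j hj, ne_eq, not_true_eq_false, not_false_eq_true]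
  have h4 : 2 * ∑ j, (W.filter (fun w => ∏ i, sg (w i) (M i j) ≠ 1)).card + A.card * W.card ≤
      Fintype.card J * W.card := by
    have h5 : ∑ j, (W.filter (fun w => ∏ i, sg (w i) (M i j) ≠ 1)).card =
        ∑ j ∈ univ \ A, (W.filter (fun w => ∏ i, sg (w i) (M i j) ≠ 1)).card := by
      rw [← sum_sdiff (subset_univ A), sum_eq_zero h3, add_zero]
    rw [h5, mul_sum]
    have h6 : ∑ j ∈ univ \ A, 2 * (W.filter (fun w => ∏ i, sg (w i) (M i j) ≠ 1)).card ≤
        (Fintype.card J - A.card) * W.card := by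
      refine (sum_le_sum (fun j _ => h2 j)).trans ?_
      rw [sum_const, smul_eq_mul, card_sdiff_of_subset (subset_univ A), card_univ]
    have h7 : A.card ≤ Fintype.card J := card_le_univ A
    calc _ ≤ (Fintype.card J - A.card) * W.card + A.card * W.card := by gcongr
      _ = Fintype.card J * W.card := by rw [← add_mul, Nat.sub_add_cancel h7]
  have h0 : (fun _ => false : I → Bool) ∈ W := by
    rw [hW, mem_filter]
    refine ⟨mem_univ _, fun j _ => ?_⟩
    simp [sg]
  have h5 : (W.card - 1) * (2 ^ b * Fintype.card J) ≤ 2 ^ (b + 1) *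
      ∑ w ∈ W, (univ.filter (fun j => ∏ i, sg (w i) (M i j) ≠ 1)).card +
        (W.card - 1) * Fintype.card J := by
    have h6 : ∑ _w ∈ W.erase (fun _ => false), (2 ^ b * Fintype.card J) ≤
        ∑ w ∈ W.erase (fun _ => false), (2 ^ (b + 1) *
          (univ.filter (fun j => ∏ i, sg (w i) (M i j) ≠ 1)).card + Fintype.card J) := by
      refine sum_le_sum (fun w hw => hM w ?_)
      by_contra hne
      push Not at hne
      apply (mem_erase.1 hw).1
      funext i
      have := hne i
      simpa using this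
    rw [sum_const, smul_eq_mul, card_erase_of_mem h0, sum_add_distrib, sum_const, smul_eq_mul,
      card_erase_of_mem h0, ← mul_sum] at h6
    refine h6.trans ?_
    have h7 : ∑ w ∈ W.erase (fun _ => false),
        (univ.filter (fun j => ∏ i, sg (w i) (M i j) ≠ 1)).card ≤
        ∑ w ∈ W, (univ.filter (fun j => ∏ i, sg (w i) (M i j) ≠ 1)).card :=
      sum_le_sum_of_subset (erase_subset _ _)
    have := Nat.mul_le_mul_left (2 ^ (b + 1)) h7
    omega
  rw [h1] at h5
  obtain ⟨X, hX⟩ : ∃ x, x = ∑ j, (W.filter (fun w => ∏ i, sg (w i) (M i j) ≠ 1)).card :=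
    ⟨_, rfl⟩
  rw [← hX] at h4 h5
  obtain ⟨N, hN⟩ : ∃ N, N = Fintype.card J := ⟨_, rfl⟩
  rw [← hN] at h4 h5 hA hJ
  have hWpos : 1 ≤ W.card := card_pos.2 ⟨_, h0⟩
  obtain ⟨c, hc⟩ : ∃ c, W.card = c + 1 := ⟨W.card - 1, by omega⟩
  rw [hc] at h4 h5 ⊢
  rw [Nat.add_sub_cancel] at h5
  -- `c 2^b N ≤ 2^(b+1) Σ + c N` and `2 Σ + |A| (c+1) ≤ N (c+1)`
  have h6 : 2 ^ b * (2 * X) + 2 ^ b * (A.card * (c + 1)) ≤ 2 ^ b * (N * (c + 1)) := by
    rw [← Nat.mul_add]; exact Nat.mul_le_mul_left _ h4
  have h7 : 2 * N * (c + 1) ≤ 2 ^ b * (A.card * (c + 1)) := by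
    have : 2 ^ b * (A.card * (c + 1)) = 2 * (2 ^ a * A.card) * (c + 1) := by
      rw [hb, pow_succ]; ring
    rw [this]
    exact Nat.mul_le_mul_right _ (Nat.mul_le_mul_left _ hA)
  have h8 : 2 ^ (b + 1) * X = 2 ^ b * (2 * X) := by rw [pow_succ]; ring
  have h9 : 2 ^ b * (N * (c + 1)) = c * (2 ^ b * N) + 2 ^ b * N := by ring
  have h10 : 2 * N * (c + 1) = 2 * (N * c) + 2 * N := by ring
  have h11 : c * N = N * c := mul_comm _ _
  have h12 : N * (c + 1) ≤ N * 2 ^ b := by
    have : N * (c + 1) = N * c + N := by ring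
    have h13 : N * 2 ^ b = 2 ^ b * N := mul_comm _ _
    omega
  exact Nat.le_of_mul_le_mul_left h12 hJ

end Pool.Agent.W896.HK
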