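import Pool.Agent.W896.HK.Basic

/-!
# Sets of solutions of parity checks closed under mixing
-/

set_option autoImplicit false
set_option maxHeartbeats 400000

open Finset

namespace Pool.Agent.W896.HK

open Pool.Agent.W896.RK

variable {I J : Type} [Fintype I] [Fintype J] [DecidableEq J]

theorem part_card (M : I → J → Bool) (A : Finset J) :
    Nat.card {u : A → Bool // ∀ i, ∏ j : A, sg (M i j) (u j) = 1} *
      2 ^ Fintype.card I = 2 ^ A.card *
    Nat.card {w : I → Bool // ∀ j ∈ A, ∏ i, sg (w i) (M i j) = 1} := by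
  have h := dual_nat (fun (i : I) (j : A) => M i j)
  rw [Fintype.card_coe] at h
  rw [h]
  congr 1
  refine Nat.card_congr (Equiv.subtypeEquivRight (fun w => ?_))
  exact ⟨fun h j hj => h ⟨j, hj⟩, fun h j => h j.1 j.2⟩

omit [Fintype I] in
open Classical in
theorem diff_mem (M : I → J → Bool) (A : Finset J) {x x' : J → Bool} {i : I}
    (h1 : ∏ j, sg (M i j) (if j ∈ A then x j else x' j) = 1)
    (h2 : ∏ j, sg (M i j) (x' j) = 1) :
    ∏ j : A, sg (M i j) (xor (x j) (x' j)) = 1 := by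
  rw [prod_coe_sort A (fun j => sg (M i j) (xor (x j) (x' j)))]
  have h3 : ∏ j, sg (M i j) (xor (if j ∈ A then x j else x' j) (x' j)) = 1 := by
    rw [prod_congr rfl (fun j _ => sg_xor_right _ _ _), prod_mul_distrib, h1, h2, one_mul]
  rw [← h3, ← prod_subset (subset_univ A)]
  · refine prod_congr rfl (fun j hj => ?_)
    rw [if_pos hj]
  · intro j _ hj
    rw [if_neg hj, Bool.xor_self, sg_false_right]

open Classical in
theorem rect_card (M : I → J → Bool) (A B : Finset J) (hAB : Disjoint A B)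
    (S : Finset (J → Bool)) (hS : ∀ x ∈ S, ∀ i, ∏ j, sg (M i j) (x j) = 1)
    (hA : ∀ x ∈ S, ∀ x' ∈ S, (∀ j, j ∉ A → j ∉ B → x j = x' j) →
      ∀ i, ∏ j, sg (M i j) (if j ∈ A then x j else x' j) = 1)
    (hB : ∀ x ∈ S, ∀ x' ∈ S, (∀ j, j ∉ A → j ∉ B → x j = x' j) →
      ∀ i, ∏ j, sg (M i j) (if j ∈ B then x j else x' j) = 1) :
    S.card * 2 ^ (2 * Fintype.card I) ≤ 2 ^ Fintype.card J *
      (Nat.card {w : I → Bool // ∀ j ∈ A, ∏ i, sg (w i) (M i j) = 1} *
        Nat.card {w : I → Bool // ∀ j ∈ B, ∏ i, sg (w i) (M i j) = 1}) := by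
  obtain ⟨kA, hkA⟩ : ∃ kA, kA = univ.filter (fun u : A → Bool =>
    ∀ i, ∏ j : A, sg (M i j) (u j) = 1) := ⟨_, rfl⟩
  obtain ⟨kB, hkB⟩ : ∃ kB, kB = univ.filter (fun u : B → Bool =>
    ∀ i, ∏ j : B, sg (M i j) (u j) = 1) := ⟨_, rfl⟩
  have h1 := part_card M A
  have h2 := part_card M B
  have hkA' : Nat.card {u : A → Bool // ∀ i, ∏ j : A, sg (M i j) (u j) = 1} = kA.card := by
    rw [hkA, Nat.card_eq_fintype_card, Fintype.card_subtype]
  have hkB' : Nat.card {u : B → Bool // ∀ i, ∏ j : B, sg (M i j) (u j) = 1} = kB.card := by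
    rw [hkB, Nat.card_eq_fintype_card, Fintype.card_subtype]
  rw [hkA'] at h1
  rw [hkB'] at h2
  obtain ⟨wA, hwA⟩ : ∃ wA, wA = Nat.card {w : I → Bool // ∀ j ∈ A, ∏ i, sg (w i) (M i j) = 1} :=
    ⟨_, rfl⟩
  obtain ⟨wB, hwB⟩ : ∃ wB, wB = Nat.card {w : I → Bool // ∀ j ∈ B, ∏ i, sg (w i) (M i j) = 1} :=
    ⟨_, rfl⟩
  rw [← hwA] at h1
  rw [← hwB] at h2
  rw [← hwA, ← hwB]
  have h3 : S.card ≤ (kA.card * kB.card) * (univ : Finset ({j // j ∉ A ∪ B} → Bool)).card := by
    refine card_le_mul_card_image_of_maps_to (f := fun x (j : {j // j ∉ A ∪ B}) => x j.1)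
      (fun x _ => mem_univ _) _ ?_
    intro c _
    rcases (S.filter (fun x => (fun (j : {j // j ∉ A ∪ B}) => x j.1) = c)).eq_empty_or_nonempty
      with h | ⟨x₀, h⟩
    · rw [h]; simp
    · rw [mem_filter] at h
      rw [← card_product]
      refine card_le_card_of_injOn (fun x => (fun j : A => xor (x j) (x₀ j),
        fun j : B => xor (x j) (x₀ j))) ?_ ?_
      · intro x hx
        rw [mem_coe, mem_filter] at hx
        have h4 : ∀ j, j ∉ A → j ∉ B → x j = x₀ j := by
          intro j ha hb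
          have h5 := hx.2.trans h.2.symm
          exact congrFun h5 ⟨j, by rw [mem_union]; push Not; exact ⟨ha, hb⟩⟩
        rw [mem_coe, mem_product, hkA, hkB, mem_filter, mem_filter]
        refine ⟨⟨mem_univ _, fun i => ?_⟩, mem_univ _, fun i => ?_⟩
        · exact diff_mem M A (hA x hx.1 x₀ h.1 h4 i) (hS x₀ h.1 i)
        · exact diff_mem M B (hB x hx.1 x₀ h.1 h4 i) (hS x₀ h.1 i)
      · intro x hx y hy hxy
        rw [mem_coe, mem_filter] at hx hy
        rw [Prod.mk.injEq] at hxy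
        funext j
        have hx0 : ∀ p q r : Bool, xor p r = xor q r → p = q := by decide
        by_cases ha : j ∈ A
        · exact hx0 _ _ _ (congrFun hxy.1 ⟨j, ha⟩)
        · by_cases hb : j ∈ B
          · exact hx0 _ _ _ (congrFun hxy.2 ⟨j, hb⟩)
          · exact congrFun (hx.2.trans hy.2.symm)
              ⟨j, by rw [mem_union]; push Not; exact ⟨ha, hb⟩⟩
  have h4 : (univ : Finset ({j // j ∉ A ∪ B} → Bool)).card * (2 ^ A.card * 2 ^ B.card) =
      2 ^ Fintype.card J := by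
    rw [card_univ, Fintype.card_fun, Fintype.card_bool, Fintype.card_subtype_compl, ← pow_add,
      ← pow_add]
    congr 1
    have h5 : Fintype.card {j // j ∈ A ∪ B} = A.card + B.card := by
      rw [Fintype.card_coe, card_union_of_disjoint hAB]
    have h6 : Fintype.card {j // j ∈ A ∪ B} ≤ Fintype.card J := Fintype.card_subtype_le _
    omega
  calc S.card * 2 ^ (2 * Fintype.card I) ≤
      ((kA.card * kB.card) * (univ : Finset ({j // j ∉ A ∪ B} → Bool)).card) *
        2 ^ (2 * Fintype.card I) := Nat.mul_le_mul_right _ h3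
    _ = (kA.card * 2 ^ Fintype.card I) * (kB.card * 2 ^ Fintype.card I) *
        (univ : Finset ({j // j ∉ A ∪ B} → Bool)).card := by
        rw [two_mul, pow_add]; ring
    _ = (2 ^ A.card * wA) * (2 ^ B.card * wB) *
        (univ : Finset ({j // j ∉ A ∪ B} → Bool)).card := by rw [h1, h2]
    _ = ((univ : Finset ({j // j ∉ A ∪ B} → Bool)).card * (2 ^ A.card * 2 ^ B.card)) *
        (wA * wB) := by ring
    _ = _ := by rw [h4]

end Pool.Agent.W896.HK
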