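import Pool.Agent.W896.FD.Core
import Pool.Agent.W896.HK.Rect

/-!
# Circuits of small formal degree and parity checks
-/

set_option autoImplicit false
set_option maxHeartbeats 1000000

open Finset

namespace Pool.Agent.W896.HK

open Pool.Agent.W896.RK Pool.Agent.W896.HP Pool.Agent.W896.FD

variable {V : Type} {n r : ℕ}

theorem fill_ne {p : Fin n → V} {b₀ : V → Bool} {x x' : Fin n → Bool} {v : V}
    (h : fill p b₀ x v ≠ fill p b₀ x' v) : ∃ j, p j = v ∧ x j ≠ x' j := by
  unfold fill at h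
  cases hv : idx p v with
  | none => rw [hv] at h; exact absurd rfl h
  | some j =>
    rw [hv] at h
    exact ⟨j, idx_some hv, h⟩

open Classical in
theorem count {U : Circ V} {p : Fin n → V} (hp : Function.Injective p) (b₀ : V → Bool)
    {d : U.G → Fin n → ℕ} (hd : IsDeg U p d) {n₁ m a κ μ b c : ℕ}
    (e₀ : Fin n₁ ⊕ Fin n₁ ↪ Fin n) (hκ : ∀ i, d U.out (e₀ i) ≤ κ) (ha : 1 ≤ a)
    (haκ : 2 * (κ * a) ≤ n₁) (hm : a + 8 * (n₁ * κ) ≤ a * m) (hc : n ≤ 2 ^ c * n₁)
    (hn : 0 < n) (hb : b = c + (2 * κ + 1) + 1) (M : Fin r → Fin n → Bool)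
    (hM : ∀ w : Fin r → Bool, (∃ i, w i = true) → 2 ^ b * n ≤
      2 ^ (b + 1) * (univ.filter (fun j => ∏ i, sg (w i) (M i j) ≠ 1)).card + n)
    (hU : ∀ x, U.Val (fill p b₀ x) U.out → ∀ i, ∏ j, sg (M i j) (x j) = 1)
    (hacc : 2 ^ n ≤ 2 ^ (r + μ) * (univ.filter
      (fun x : Fin n → Bool => U.Val (fill p b₀ x) U.out)).card) :
    2 ^ r ≤ 2 ^ (μ + 2 * b) * Fintype.card (Option (Piece U)) ^ m := by
  have hn₁ : 1 ≤ n₁ := by
    rcases Nat.eq_zero_or_pos n₁ with h | h
    · rw [h] at hc; omega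
    · exact h
  have hd' : IsDeg U (fun i => p (e₀ i)) (fun g i => d g (e₀ i)) :=
    ⟨fun g v b e i hi => hd.1 g v b e (e₀ i) hi, fun g a b e i => hd.2.1 g a b e (e₀ i),
      fun g S a e ha i => hd.2.2 g S a e ha (e₀ i)⟩
  have hp' : Function.Injective (fun i => p (e₀ i)) := hp.comp e₀.injective
  obtain ⟨S, hS⟩ : ∃ S : (Fin m → Option (Piece U)) → Finset (Fin n → Bool),
    ∀ θ, S θ = if Valid U (fun i => p (e₀ i)) (fun g i => d g (e₀ i)) a κ θ then
      univ.filter (fun x => ∀ j P, θ j = some P → P.True (fill p b₀ x))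
      else ∅ := ⟨_, fun _ => rfl⟩
  have hwt : wt (fun g i => d g (e₀ i)) U.out ≤ 2 * (n₁ * κ) := by
    unfold wt
    calc ∑ i, d U.out (e₀ i) ≤ ∑ _i : Fin n₁ ⊕ Fin n₁, κ := sum_le_sum (fun i _ => hκ i)
      _ = 2 * (n₁ * κ) := by
          rw [sum_const, card_univ, Fintype.card_sum, Fintype.card_fin, smul_eq_mul]
          ring
  have h3 : univ.filter (fun x : Fin n → Bool => U.Val (fill p b₀ x) U.out) ⊆
      univ.biUnion S := by
    intro x hx
    rw [mem_filter] at hx
    obtain ⟨θ, h4, h5⟩ := exists_valid (p := fun i => p (e₀ i)) (d := fun g i => d g (e₀ i))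
      hd' ha hp' hx.2 hκ (m := m) (by omega)
    rw [mem_biUnion]
    refine ⟨θ, mem_univ _, ?_⟩
    rw [hS, if_pos h4, mem_filter]
    exact ⟨mem_univ _, h5⟩
  have h4 : ∀ θ, (S θ).card * 2 ^ (2 * r) ≤ 2 ^ n * (2 ^ b * 2 ^ b) := by
    intro θ
    by_cases hθ : Valid U (fun i => p (e₀ i)) (fun g i => d g (e₀ i)) a κ θ
    swap
    · rw [hS, if_neg hθ]; simp
    have hmem : ∀ x, x ∈ S θ ↔ ∀ j P, θ j = some P → P.True (fill p b₀ x) := by
      intro x
      rw [hS, if_pos hθ, mem_filter]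
      exact ⟨fun h => h.2, fun h => ⟨mem_univ _, h⟩⟩
    obtain ⟨col, hcol⟩ := exists_color (vrs (fun i => p (e₀ i)) (fun g i => d g (e₀ i)) θ)
      hθ.cnt hθ.card haκ
    obtain ⟨A₁, hA₁⟩ : ∃ A₁, A₁ = univ.filter (fun i : Fin n₁ => ∀ j, Sum.inl i ∈
      vrs (fun i => p (e₀ i)) (fun g i => d g (e₀ i)) θ j → col j = true) := ⟨_, rfl⟩
    obtain ⟨B₁, hB₁⟩ : ∃ B₁, B₁ = univ.filter (fun i : Fin n₁ => ∀ j, Sum.inr i ∈
      vrs (fun i => p (e₀ i)) (fun g i => d g (e₀ i)) θ j → col j = false) := ⟨_, rfl⟩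
    rw [← hA₁, ← hB₁] at hcol
    obtain ⟨A, hA⟩ : ∃ A, A = A₁.image (fun i => e₀ (.inl i)) := ⟨_, rfl⟩
    obtain ⟨B, hB⟩ : ∃ B, B = B₁.image (fun i => e₀ (.inr i)) := ⟨_, rfl⟩
    have hAc : A.card = A₁.card := by
      rw [hA]; exact card_image_of_injective _ (fun i j h => Sum.inl_injective (e₀.injective h))
    have hBc : B.card = B₁.card := by
      rw [hB]; exact card_image_of_injective _ (fun i j h => Sum.inr_injective (e₀.injective h))
    have hAB : Disjoint A B := by
      rw [Finset.disjoint_left]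
      intro v hv hv'
      rw [hA, mem_image] at hv
      rw [hB, mem_image] at hv'
      obtain ⟨i, -, rfl⟩ := hv
      obtain ⟨j, -, h⟩ := hv'
      exact Sum.inr_ne_inl (e₀.injective h)
    have hA1n : A₁.card ≤ n₁ := by simpa using card_le_univ A₁
    have hB1n : B₁.card ≤ n₁ := by simpa using card_le_univ B₁
    have hA2 : n₁ ≤ 2 ^ (2 * κ + 1) * A.card := by
      rw [hAc]
      refine Nat.le_of_mul_le_mul_right (c := n₁) ?_ hn₁
      calc n₁ * n₁ ≤ 2 ^ (2 * κ + 1) * (A₁.card * B₁.card) := hcol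
        _ ≤ 2 ^ (2 * κ + 1) * (A₁.card * n₁) := by gcongr
        _ = _ := by ring
    have hB2 : n₁ ≤ 2 ^ (2 * κ + 1) * B.card := by
      rw [hBc]
      refine Nat.le_of_mul_le_mul_right (c := n₁) ?_ hn₁
      calc n₁ * n₁ ≤ 2 ^ (2 * κ + 1) * (A₁.card * B₁.card) := hcol
        _ ≤ 2 ^ (2 * κ + 1) * (n₁ * B₁.card) := by gcongr
        _ = _ := by ring
    have hA3 : Fintype.card (Fin n) ≤ 2 ^ (c + (2 * κ + 1)) * A.card := by
      rw [Fintype.card_fin, pow_add, mul_assoc]
      exact hc.trans (Nat.mul_le_mul_left _ hA2)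
    have hB3 : Fintype.card (Fin n) ≤ 2 ^ (c + (2 * κ + 1)) * B.card := by
      rw [Fintype.card_fin, pow_add, mul_assoc]
      exact hc.trans (Nat.mul_le_mul_left _ hB2)
    have hM' : ∀ w : Fin r → Bool, (∃ i, w i = true) → 2 ^ b * Fintype.card (Fin n) ≤
        2 ^ (b + 1) * (univ.filter (fun j => ∏ i, sg (w i) (M i j) ≠ 1)).card +
          Fintype.card (Fin n) := by
      intro w hw
      rw [Fintype.card_fin]
      exact hM w hw
    have hWA := plotkin M hb hM' A hA3 (by rw [Fintype.card_fin]; exact hn)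
    have hWB := plotkin M hb hM' B hB3 (by rw [Fintype.card_fin]; exact hn)
    have hvrs : ∀ j P, θ j = some P →
        vrs (fun i => p (e₀ i)) (fun g i => d g (e₀ i)) θ j =
          P.vars (fun i => p (e₀ i)) (fun g i => d g (e₀ i)) := by
      intro j P hj
      unfold vrs
      rw [hj]; rfl
    have hacc' : ∀ x, (∀ j P, θ j = some P → P.True (fill p b₀ x)) →
        ∀ i, ∏ j, sg (M i j) (x j) = 1 := by
      intro x h
      apply hU
      apply hθ.cl.val
      intro P hP
      obtain ⟨j, hj⟩ := mem_plst.1 hP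
      exact h j P hj
    -- mixing
    have hmix : ∀ x ∈ S θ, ∀ x' ∈ S θ, (∀ j, j ∉ A → j ∉ B → x j = x' j) →
        ∀ j P, θ j = some P → P.True (fill p b₀ (fun j => if j ∈ A then x j else x' j)) := by
      intro x hx x' hx' hxx j P hj
      cases hcj : col j with
      | true =>
        refine piece_dep' hd' ((hmem x).1 hx j P hj) (fun v hv => ?_) hp'
        obtain ⟨u, hu, hne⟩ := fill_ne hv
        have huA : u ∉ A := by
          intro h; rw [if_pos h] at hne; exact hne rfl
        have huB : u ∈ B := by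
          by_contra h
          rw [if_neg huA] at hne
          exact hne (hxx u huA h)
        rw [hB, mem_image] at huB
        obtain ⟨i, hi, hiu⟩ := huB
        refine ⟨.inr i, ?_, ?_⟩
        · rw [hiu, hu]
        · intro h
          rw [← hvrs j P hj] at h
          rw [hB₁, mem_filter] at hi
          rw [hi.2 j h] at hcj
          exact Bool.noConfusion hcj
      | false =>
        refine piece_dep' hd' ((hmem x').1 hx' j P hj) (fun v hv => ?_) hp'
        obtain ⟨u, hu, hne⟩ := fill_ne hv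
        have huA : u ∈ A := by
          by_contra h; rw [if_neg h] at hne; exact hne rfl
        rw [hA, mem_image] at huA
        obtain ⟨i, hi, hiu⟩ := huA
        refine ⟨.inl i, ?_, ?_⟩
        · rw [hiu, hu]
        · intro h
          rw [← hvrs j P hj] at h
          rw [hA₁, mem_filter] at hi
          rw [hi.2 j h] at hcj
          exact Bool.noConfusion hcj
    have h5 := rect_card M A B hAB (S θ) (fun x hx => hacc' x ((hmem x).1 hx))
      (fun x hx x' hx' hxx => hacc' _ (hmix x hx x' hx' hxx))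
      (fun x hx x' hx' hxx => by
        have h6 := hacc' _ (hmix x' hx' x hx (fun j h1 h2 => (hxx j h1 h2).symm))
        have h7 : (fun j => if j ∈ A then x' j else x j) = fun j => if j ∈ B then x j else x' j := by
          funext j
          by_cases h8 : j ∈ A
          · have h9 : j ∉ B := Finset.disjoint_left.1 hAB h8
            rw [if_pos h8, if_neg h9]
          · by_cases h9 : j ∈ B
            · rw [if_neg h8, if_pos h9]
            · rw [if_neg h8, if_neg h9]; exact hxx j h8 h9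
        intro i
        have h8 := h6 i
        have h9 : ∀ j, (if j ∈ A then x' j else x j) = if j ∈ B then x j else x' j :=
          fun j => congrFun h7 j
        simp only [h9] at h8
        exact h8)
    rw [Fintype.card_fin, Fintype.card_fin] at h5
    exact h5.trans (Nat.mul_le_mul_left _ (Nat.mul_le_mul hWA hWB))
  have h5 : (univ.filter (fun x : Fin n → Bool => U.Val (fill p b₀ x) U.out)).card *
      2 ^ (2 * r) ≤ Fintype.card (Option (Piece U)) ^ m * (2 ^ n * (2 ^ b * 2 ^ b)) := by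
    calc _ ≤ (∑ θ, (S θ).card) * 2 ^ (2 * r) :=
          Nat.mul_le_mul_right _ ((card_le_card h3).trans card_biUnion_le)
      _ = ∑ θ, (S θ).card * 2 ^ (2 * r) := sum_mul _ _ _
      _ ≤ ∑ _θ : Fin m → Option (Piece U), 2 ^ n * (2 ^ b * 2 ^ b) :=
          sum_le_sum (fun θ _ => h4 θ)
      _ = _ := by
          rw [sum_const, card_univ, smul_eq_mul, Fintype.card_fun, Fintype.card_fin]
  have h6 : 2 ^ (n + r) * 2 ^ r ≤ 2 ^ (n + r) *
      (2 ^ (μ + 2 * b) * Fintype.card (Option (Piece U)) ^ m) := by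
    calc 2 ^ (n + r) * 2 ^ r = 2 ^ n * 2 ^ (2 * r) := by rw [two_mul, pow_add, pow_add]; ring
      _ ≤ (2 ^ (r + μ) * (univ.filter
          (fun x : Fin n → Bool => U.Val (fill p b₀ x) U.out)).card) * 2 ^ (2 * r) :=
          Nat.mul_le_mul_right _ hacc
      _ = 2 ^ (r + μ) * ((univ.filter
          (fun x : Fin n → Bool => U.Val (fill p b₀ x) U.out)).card * 2 ^ (2 * r)) := by ring
      _ ≤ 2 ^ (r + μ) * (Fintype.card (Option (Piece U)) ^ m * (2 ^ n * (2 ^ b * 2 ^ b))) :=
          Nat.mul_le_mul_left _ h5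
      _ = _ := by
          have e1 : 2 ^ (μ + 2 * b) = 2 ^ μ * (2 ^ b * 2 ^ b) := by
            rw [pow_add, two_mul, pow_add]
          have e2 : 2 ^ (r + μ) = 2 ^ r * 2 ^ μ := pow_add _ _ _
          have e3 : 2 ^ (n + r) = 2 ^ n * 2 ^ r := pow_add _ _ _
          rw [e1, e2, e3]; ring
  exact Nat.le_of_mul_le_mul_left h6 (by positivity)

end Pool.Agent.W896.HK
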