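import Mathlib
import Pool.Agent.NPC.Hard

/-!
# The function: a system of parity checks with a Hankel matrix
-/

set_option autoImplicit false
set_option maxHeartbeats 400000

open Finset

namespace Pool.Agent.W896.HK

open Pool.Agent.NPC

/-- The parity of the number of `j < n` with `l (i + j) = l (2 n + j) = 1`, `n = |l| / 4`. -/
def rowOdd (l : List Bool) (i : ℕ) : Bool :=
  decide (((List.range (l.length / 4)).filter
    (fun j => l.getD (i + j) false && l.getD (2 * (l.length / 4) + j) false)).length % 2 = 1)

/-- The function: the first `2 n` of the `4 n` bits are `s`, then follow the `n` bits of `x` and the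
`n` bits of `y`; the value is one if for every `i < n` with `y i = 1` the number of the `j < n` with
`s (i + j) = x j = 1` is even. -/
def hankel (l : List Bool) : Bool :=
  (List.range (l.length / 4)).all
    (fun i => !(l.getD (3 * (l.length / 4) + i) false && rowOdd l i))

section

variable {α : Type} [TEnc α]

theorem p_quarter {l : α → List Bool} (hl : Poly l) : Poly (fun a => (l a).length / 4) :=
  Poly.div (Poly.length hl) (NPC.Poly.const 4)

theorem u_quarter {l : α → List Bool} (hl : Poly l) : UPoly (fun a => (l a).length / 4) :=
  UPoly.of_le (p_quarter hl) (UPoly.length hl) (fun _ => Nat.div_le_self _ _)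

theorem p_rowOdd {l : α → List Bool} {p : α → ℕ} (hl : Poly l) (hp : Poly p) :
    Poly (fun a => rowOdd (l a) (p a)) := by
  have h : Poly (fun a => (List.range ((l a).length / 4)).filter
      (fun j => (l a).getD (p a + j) false && (l a).getD (2 * ((l a).length / 4) + j) false)) := by
    refine Poly.filter (l := fun a => List.range ((l a).length / 4))
      (p := fun a j => (l a).getD (p a + j) false &&
        (l a).getD (2 * ((l a).length / 4) + j) false) (u_quarter hl).range ?_
    have hl' : Poly (fun x : α × ℕ => l x.1) := hl.comp (Poly.fst Poly.id)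
    have hp' : Poly (fun x : α × ℕ => p x.1) := hp.comp (Poly.fst Poly.id)
    have h2 : Poly (fun x : α × ℕ => x.2) := Poly.snd Poly.id
    exact Poly.and (Poly.getD hl' (Poly.add hp' h2) (NPC.Poly.const false))
      (Poly.getD hl' (Poly.add (Poly.mul (NPC.Poly.const 2) (p_quarter hl')) h2)
        (NPC.Poly.const false))
  exact Poly.decide_eq (Poly.mod (Poly.length h) (NPC.Poly.const 2)) (NPC.Poly.const 1)

theorem p_hankel {l : α → List Bool} (hl : Poly l) : Poly (fun a => hankel (l a)) := by
  refine Poly.all (l := fun a => List.range ((l a).length / 4))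
    (p := fun a i => !((l a).getD (3 * ((l a).length / 4) + i) false && rowOdd (l a) i))
    (u_quarter hl).range ?_
  have hl' : Poly (fun x : α × ℕ => l x.1) := hl.comp (Poly.fst Poly.id)
  have h2 : Poly (fun x : α × ℕ => x.2) := Poly.snd Poly.id
  exact Poly.not (Poly.and (Poly.getD hl' (Poly.add (Poly.mul (NPC.Poly.const 3)
    (p_quarter hl')) h2) (NPC.Poly.const false)) (p_rowOdd hl' h2))

end

/-- The function is computable in polynomial time. -/
theorem hankel_in_P : ∃ V : List Bool → List Bool, PolyTime V ∧
    ∀ x : List Bool, hankel x = true ↔ V x = [true] := by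
  refine ⟨fun x => if toT (hankel x) = T.nil then [false] else [true], ?_, ?_⟩
  · have h2 : PC (bits : List Bool → List Bool) T.enc (fun x : List Bool => toT (hankel x)) :=
      p_hankel (α := List Bool) (l := fun x => x) Poly.id
    have h3 : PC (fun x : List Bool => x) (bits : List Bool → List Bool) (fun x => x) := PC.ofBits
    have h1 : PC (fun x : List Bool => x) T.enc (fun x : List Bool => toT (hankel x)) :=
      PC.comp (g := fun x : List Bool => toT (hankel x)) (f := fun x : List Bool => x) h2 h3
    exact PC.toPolyTime (PC.ite (eb := fun x : List Bool => x) h1 (PC.const _) (PC.const _))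
  · intro x
    have e0 : (toT false : T) = T.nil := rfl
    have e1 : (toT true : T) ≠ T.nil := by
      change T.ofBool true ≠ T.nil
      simp [T.ofBool]
    beta_reduce
    generalize hankel x = b
    cases b
    · simp [e0]
    · simp [e1]

end Pool.Agent.W896.HK
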