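import Pool.Agent.W896.HK.Basic

/-!
# Hankel matrices whose row combinations have weight close to one half
-/

set_option autoImplicit false
set_option maxHeartbeats 400000

open Finset

namespace Pool.Agent.W896.HK

open Pool.Agent.W896.RK

variable {n r : ℕ}

/-- The Hankel matrix of a seed. -/
def hk (hr : r ≤ n) (s : Fin (2 * n) → Bool) (i : Fin r) (j : Fin n) : Bool :=
  s ⟨i.val + j.val, by have := i.isLt; have := j.isLt; omega⟩

open Classical in
theorem flipsum (hr : r ≤ n) (w : Fin r → Bool) (hw : ∃ i, w i = true) (T : Finset (Fin n))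
    (hT : T.Nonempty) :
    ∑ s : Fin (2 * n) → Bool, ∏ j ∈ T, ∏ i, sg (w i) (hk hr s i j) = 0 := by
  -- the smallest indices
  obtain ⟨i₀, hi₀, hmin⟩ : ∃ i₀, w i₀ = true ∧ ∀ i, w i = true → i₀ ≤ i := by
    have h : (univ.filter (fun i => w i = true)).Nonempty := by
      obtain ⟨i, hi⟩ := hw
      exact ⟨i, mem_filter.2 ⟨mem_univ _, hi⟩⟩
    refine ⟨(univ.filter (fun i => w i = true)).min' h, ?_, ?_⟩
    · exact (mem_filter.1 (min'_mem _ h)).2
    · intro i hi
      exact min'_le (univ.filter (fun i => w i = true)) i (mem_filter.2 ⟨mem_univ i, hi⟩)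
  obtain ⟨j₀, hj₀, hmin'⟩ : ∃ j₀ ∈ T, ∀ j ∈ T, j₀ ≤ j :=
    ⟨T.min' hT, min'_mem _ _, fun j hj => min'_le _ _ hj⟩
  obtain ⟨t, ht⟩ : ∃ t : Fin (2 * n), t = ⟨i₀.val + j₀.val, by
    have := i₀.isLt; have := j₀.isLt; omega⟩ := ⟨_, rfl⟩
  obtain ⟨fl, hfl⟩ : ∃ fl : (Fin (2 * n) → Bool) → (Fin (2 * n) → Bool),
    ∀ s, fl s = Function.update s t (!s t) := ⟨_, fun _ => rfl⟩
  have hinv : Function.Involutive fl := by
    intro s
    rw [hfl, hfl]
    simp
  have key : ∀ s, ∏ j ∈ T, ∏ i, sg (w i) (hk hr (fl s) i j) =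
      - ∏ j ∈ T, ∏ i, sg (w i) (hk hr s i j) := by
    intro s
    rw [← mul_prod_erase T _ hj₀, ← mul_prod_erase T (fun j => ∏ i, sg (w i) (hk hr s i j)) hj₀]
    have h1 : ∏ j ∈ T.erase j₀, ∏ i, sg (w i) (hk hr (fl s) i j) =
        ∏ j ∈ T.erase j₀, ∏ i, sg (w i) (hk hr s i j) := by
      refine prod_congr rfl (fun j hj => prod_congr rfl (fun i _ => ?_))
      cases hwi : w i with
      | false => rw [sg_false_left, sg_false_left]
      | true =>
        have h2 := hmin i hwi
        have h3 := hmin' j (mem_erase.1 hj).2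
        have h4 : j₀.val < j.val := lt_of_le_of_ne h3 (fun h => (mem_erase.1 hj).1 (Fin.ext h.symm))
        have h5 : (⟨i.val + j.val, by have := i.isLt; have := j.isLt; omega⟩ : Fin (2 * n)) ≠ t := by
          rw [ht]
          intro h
          have h6 := congrArg Fin.val h
          simp only at h6
          have h7 : i₀.val ≤ i.val := h2
          omega
        unfold hk
        rw [hfl, Function.update_of_ne h5]
    have h2 : ∏ i, sg (w i) (hk hr (fl s) i j₀) = - ∏ i, sg (w i) (hk hr s i j₀) := by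
      rw [← mul_prod_erase univ _ (mem_univ i₀),
        ← mul_prod_erase univ (fun i => sg (w i) (hk hr s i j₀)) (mem_univ i₀)]
      have h3 : ∏ i ∈ univ.erase i₀, sg (w i) (hk hr (fl s) i j₀) =
          ∏ i ∈ univ.erase i₀, sg (w i) (hk hr s i j₀) := by
        refine prod_congr rfl (fun i hi => ?_)
        have h5 : (⟨i.val + j₀.val, by have := i.isLt; have := j₀.isLt; omega⟩ :
            Fin (2 * n)) ≠ t := by
          rw [ht]
          intro h
          have h6 := congrArg Fin.val h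
          simp only at h6
          exact (mem_erase.1 hi).1 (Fin.ext (by omega))
        unfold hk
        rw [hfl, Function.update_of_ne h5]
      rw [h3]
      have h4 : sg (w i₀) (hk hr (fl s) i₀ j₀) = - sg (w i₀) (hk hr s i₀ j₀) := by
        unfold hk
        rw [← ht, hfl, Function.update_self, hi₀]
        cases s t <;> simp [sg]
      rw [h4]; ring
    rw [h1, h2]; ring
  have h1 : ∑ s : Fin (2 * n) → Bool, ∏ j ∈ T, ∏ i, sg (w i) (hk hr s i j) =
      ∑ s : Fin (2 * n) → Bool, ∏ j ∈ T, ∏ i, sg (w i) (hk hr (fl s) i j) :=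
    (Equiv.sum_comp hinv.toPerm (fun s => ∏ j ∈ T, ∏ i, sg (w i) (hk hr s i j))).symm
  have h2 : ∑ s : Fin (2 * n) → Bool, ∏ j ∈ T, ∏ i, sg (w i) (hk hr (fl s) i j) =
      - ∑ s : Fin (2 * n) → Bool, ∏ j ∈ T, ∏ i, sg (w i) (hk hr s i j) := by
    rw [← sum_neg_distrib]
    exact sum_congr rfl (fun s _ => key s)
  linarith

open Classical in
theorem moment (hr : r ≤ n) (w : Fin r → Bool) (hw : ∃ i, w i = true) (α β : ℝ) :
    ∑ s : Fin (2 * n) → Bool, ∏ j, (β * ∏ i, sg (w i) (hk hr s i j) + α) =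
      2 ^ (2 * n) * α ^ n := by
  have h1 : ∀ s : Fin (2 * n) → Bool, ∏ j, (β * ∏ i, sg (w i) (hk hr s i j) + α) =
      ∑ T ∈ (univ : Finset (Fin n)).powerset, (β ^ T.card * α ^ (univ \ T).card) *
        ∏ j ∈ T, ∏ i, sg (w i) (hk hr s i j) := by
    intro s
    rw [prod_add]
    refine sum_congr rfl (fun T _ => ?_)
    rw [prod_mul_distrib, prod_const, prod_const]
    ring
  rw [sum_congr rfl (fun s _ => h1 s), sum_comm]
  rw [sum_eq_single (∅ : Finset (Fin n))]
  · simp
  · intro T _ hT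
    rw [← mul_sum, flipsum hr w hw T (nonempty_iff_ne_empty.2 hT), mul_zero]
  · intro h
    exact absurd (mem_powerset.2 (empty_subset _)) h

open Classical in
/-- A good seed exists. -/
theorem exists_seed {b : ℕ} (hr : r ≤ n) (hrn : r * 2 ^ (2 * b + 1) ≤ n) :
    ∃ s : Fin (2 * n) → Bool, ∀ w : Fin r → Bool, (∃ i, w i = true) →
      2 ^ b * n ≤ 2 ^ (b + 1) *
        (univ.filter (fun j => ∏ i, sg (w i) (hk hr s i j) ≠ 1)).card + n := by
  by_contra hcon
  push Not at hcon
  obtain ⟨lam, hlam⟩ : ∃ lam : ℝ, lam = (1 / 2) ^ b := ⟨_, rfl⟩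
  have hlam0 : 0 < lam := by rw [hlam]; positivity
  -- the nonzero vectors
  obtain ⟨W, hW⟩ : ∃ W : Finset (Fin r → Bool), W = univ.filter (fun w => ∃ i, w i = true) :=
    ⟨_, rfl⟩
  have hWc : W.card + 1 ≤ 2 ^ r := by
    have h1 : W ⊆ univ.erase (fun _ => false) := by
      intro w hw
      rw [mem_erase]
      refine ⟨?_, mem_univ _⟩
      rintro rfl
      rw [hW, mem_filter] at hw
      obtain ⟨i, hi⟩ := hw.2
      exact Bool.noConfusion hi
    have h2 := card_le_card h1
    rw [card_erase_of_mem (mem_univ _), card_univ, Fintype.card_fun, Fintype.card_bool,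
      Fintype.card_fin] at h2
    have := Nat.one_le_two_pow (n := r)
    omega
  have hpos : ∀ (s : Fin (2 * n) → Bool) (w : Fin r → Bool) (j : Fin n),
      0 < Real.sinh lam * ∏ i, sg (w i) (hk hr s i j) + Real.cosh lam := by
    intro s w j
    rcases prod_pm univ (fun i => sg (w i) (hk hr s i j)) (fun i _ => sg_pm _ _) with h | h
    · rw [h, mul_one, add_comm, Real.cosh_add_sinh]; exact Real.exp_pos _
    · rw [h, mul_neg_one, neg_add_eq_sub, Real.cosh_sub_sinh]; exact Real.exp_pos _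
  have h1 : ∀ s : Fin (2 * n) → Bool, Real.exp (lam * lam * n) ≤
      ∑ w ∈ W, ∏ j, (Real.sinh lam * ∏ i, sg (w i) (hk hr s i j) + Real.cosh lam) := by
    intro s
    obtain ⟨w, hw, hlt⟩ := hcon s
    have hwW : w ∈ W := by rw [hW, mem_filter]; exact ⟨mem_univ _, hw⟩
    obtain ⟨F, hF⟩ : ∃ F : (Fin r → Bool) → ℝ, ∀ w, F w = ∏ j,
      (Real.sinh lam * ∏ i, sg (w i) (hk hr s i j) + Real.cosh lam) := ⟨_, fun _ => rfl⟩
    have hFs : F w ≤ ∑ w ∈ W, F w := by
      refine single_le_sum (fun w _ => ?_) hwW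
      rw [hF]
      exact prod_nonneg (fun j _ => (hpos s w j).le)
    rw [sum_congr rfl (fun w _ => (hF w).symm)]
    refine le_trans ?_ hFs
    rw [hF]
    have h2 : ∏ j, (Real.sinh lam * ∏ i, sg (w i) (hk hr s i j) + Real.cosh lam) =
        Real.exp (∑ j : Fin n, (if ∏ i, sg (w i) (hk hr s i j) ≠ 1 then -lam else lam)) := by
      rw [Real.exp_sum]
      refine prod_congr rfl (fun j _ => ?_)
      rcases prod_pm univ (fun i => sg (w i) (hk hr s i j)) (fun i _ => sg_pm _ _) with h | h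
      · rw [h, mul_one, add_comm, Real.cosh_add_sinh]; simp
      · rw [h, mul_neg_one, neg_add_eq_sub, Real.cosh_sub_sinh, if_pos (by norm_num)]
    rw [h2]
    apply Real.exp_le_exp.2
    have h3 : ∑ j : Fin n, (if ∏ i, sg (w i) (hk hr s i j) ≠ 1 then -lam else lam) =
        lam * (n - 2 * (univ.filter (fun j => ∏ i, sg (w i) (hk hr s i j) ≠ 1)).card) := by
      have h4 : ∀ j : Fin n, (if ∏ i, sg (w i) (hk hr s i j) ≠ 1 then -lam else lam) =
          lam - 2 * lam * (if ∏ i, sg (w i) (hk hr s i j) ≠ 1 then 1 else 0) := by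
        intro j
        split_ifs <;> ring
      rw [sum_congr rfl (fun j _ => h4 j), sum_sub_distrib, ← mul_sum, sum_boole]
      simp only [sum_const, card_univ, Fintype.card_fin, nsmul_eq_mul]
      ring
    rw [h3, mul_assoc]
    apply mul_le_mul_of_nonneg_left _ hlam0.le
    -- `n / 2^b ≤ n - 2 wt`
    have h4 : ((2 ^ (b + 1) * (univ.filter (fun j => ∏ i, sg (w i) (hk hr s i j) ≠ 1)).card + n
        : ℕ) : ℝ) ≤ ((2 ^ b * n : ℕ) : ℝ) := by exact_mod_cast hlt.le
    push_cast at h4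
    have h5 : (2 : ℝ) ^ b * lam = 1 := by rw [hlam, ← mul_pow]; norm_num
    have h6 : (0 : ℝ) < 2 ^ b := by positivity
    have h7 : (2 : ℝ) ^ b * (lam * n) ≤ 2 ^ b *
        (n - 2 * (univ.filter (fun j => ∏ i, sg (w i) (hk hr s i j) ≠ 1)).card) := by
      rw [← mul_assoc, h5, one_mul]
      rw [pow_succ] at h4
      linarith
    exact le_of_mul_le_mul_left h7 h6
  have h2 : ∑ s : Fin (2 * n) → Bool, ∑ w ∈ W, ∏ j,
      (Real.sinh lam * ∏ i, sg (w i) (hk hr s i j) + Real.cosh lam) =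
      W.card * (2 ^ (2 * n) * Real.cosh lam ^ n) := by
    rw [sum_comm]
    rw [sum_congr rfl (fun w hw => moment hr w (by
      rw [hW, mem_filter] at hw; exact hw.2) (Real.cosh lam) (Real.sinh lam))]
    rw [sum_const, nsmul_eq_mul]
  have h3 : (2 : ℝ) ^ (2 * n) * Real.exp (lam * lam * n) ≤
      W.card * (2 ^ (2 * n) * Real.cosh lam ^ n) := by
    rw [← h2]
    calc (2 : ℝ) ^ (2 * n) * Real.exp (lam * lam * n) =
        ∑ _s : Fin (2 * n) → Bool, Real.exp (lam * lam * n) := by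
          rw [sum_const, card_univ, Fintype.card_fun, Fintype.card_bool, Fintype.card_fin,
            nsmul_eq_mul]
          push_cast; ring
      _ ≤ _ := sum_le_sum (fun s _ => h1 s)
  have h4 : Real.exp (lam * lam * n) ≤ W.card * Real.cosh lam ^ n := by
    have h5 : (0 : ℝ) < 2 ^ (2 * n) := by positivity
    refine le_of_mul_le_mul_left ?_ h5
    calc _ ≤ _ := h3
      _ = _ := by ring
  have h5 : Real.cosh lam ^ n ≤ Real.exp (lam * lam * n / 2) := by
    calc Real.cosh lam ^ n ≤ Real.exp (lam ^ 2 / 2) ^ n :=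
          pow_le_pow_left₀ (Real.cosh_pos _).le (Real.cosh_le_exp_half_sq lam) _
      _ = _ := by rw [← Real.exp_nat_mul]; congr 1; ring
  have h6 : Real.exp (lam * lam * n / 2) ≤ W.card := by
    have h7 : Real.exp (lam * lam * n) = Real.exp (lam * lam * n / 2) *
        Real.exp (lam * lam * n / 2) := by rw [← Real.exp_add]; congr 1; ring
    have h8 : Real.exp (lam * lam * n / 2) * Real.exp (lam * lam * n / 2) ≤
        W.card * Real.exp (lam * lam * n / 2) := by
      rw [← h7]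
      exact h4.trans (mul_le_mul_of_nonneg_left h5 (by positivity))
    exact le_of_mul_le_mul_right h8 (Real.exp_pos _)
  have h7 : (2 : ℝ) ^ r ≤ Real.exp (lam * lam * n / 2) := by
    have h8 : (r : ℝ) ≤ lam * lam * n / 2 := by
      have h9 : ((r * 2 ^ (2 * b + 1) : ℕ) : ℝ) ≤ n := by exact_mod_cast hrn
      push_cast at h9
      have h10 : (2 : ℝ) ^ (2 * b + 1) * (lam * lam / 2) = 1 := by
        rw [hlam, pow_succ, pow_mul']
        have : ((2 : ℝ) ^ b) ^ 2 * 2 * ((1 / 2) ^ b * (1 / 2) ^ b / 2) =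
          (2 ^ b * (1 / 2) ^ b) * (2 ^ b * (1 / 2) ^ b) := by ring
        rw [this, ← mul_pow]; norm_num
      have h11 : 0 ≤ lam * lam / 2 := by positivity
      calc (r : ℝ) = r * ((2 : ℝ) ^ (2 * b + 1) * (lam * lam / 2)) := by rw [h10, mul_one]
        _ = (r * (2 : ℝ) ^ (2 * b + 1)) * (lam * lam / 2) := by ring
        _ ≤ n * (lam * lam / 2) := mul_le_mul_of_nonneg_right h9 h11
        _ = _ := by ring
    have h12 : (2 : ℝ) ≤ Real.exp 1 := by
      have := Real.add_one_le_exp (1 : ℝ)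
      linarith
    calc (2 : ℝ) ^ r ≤ Real.exp 1 ^ r := pow_le_pow_left₀ (by norm_num) h12 _
      _ = Real.exp r := by rw [← Real.exp_nat_mul, mul_one]
      _ ≤ _ := Real.exp_le_exp.2 h8
  have h8 : ((W.card + 1 : ℕ) : ℝ) ≤ ((2 ^ r : ℕ) : ℝ) := by exact_mod_cast hWc
  push_cast at h8
  linarith

end Pool.Agent.W896.HK
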