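import Pool.Agent.W896.HK.Count
import Pool.Agent.W896.HK.Seed
import Pool.Agent.W896.HK.Fun

/-!
# The lower bound for the function `hankel`
-/

set_option autoImplicit false
set_option maxHeartbeats 1000000

open Finset

namespace Pool.Agent.W896.HK

open Pool.Agent.W896.RK Pool.Agent.W896.HP Pool.Agent.W896.FD

theorem prod_sign (g : ℕ → Bool) (n : ℕ) : ∏ j ∈ range n, (if g j = true then (-1 : ℝ) else 1) =
    (-1) ^ ((List.range n).filter g).length := by
  induction n with
  | zero => simp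
  | succ n ih =>
    rw [prod_range_succ, ih, List.range_succ, List.filter_append, List.length_append, pow_add]
    congr 1
    cases h : g n <;> simp [h]

theorem par_iff (g : ℕ → Bool) (n : ℕ) :
    decide (((List.range n).filter g).length % 2 = 1) = false ↔
      ∏ j : Fin n, (if g j.val = true then (-1 : ℝ) else 1) = 1 := by
  rw [Fin.prod_univ_eq_prod_range (fun j => if g j = true then (-1 : ℝ) else 1) n, prod_sign,
    decide_eq_false_iff_not]
  rcases Nat.even_or_odd ((List.range n).filter g).length with h | h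
  · rw [h.neg_one_pow]
    have := Nat.even_iff.1 h
    simp only [iff_true]; omega
  · rw [h.neg_one_pow]
    have := Nat.odd_iff.1 h
    constructor
    · intro h'; exact absurd this h'
    · intro h'; norm_num at h'

variable {n : ℕ}

/-- The word made of `s`, `x` and `y`. -/
def word (s : Fin (2 * n) → Bool) (x y : Fin n → Bool) : List Bool :=
  List.ofFn s ++ (List.ofFn x ++ List.ofFn y)

theorem word_length (s : Fin (2 * n) → Bool) (x y : Fin n → Bool) :
    (word s x y).length / 4 = n := by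
  unfold word
  rw [List.length_append, List.length_append, List.length_ofFn, List.length_ofFn,
    List.length_ofFn]
  omega

theorem word_s (s : Fin (2 * n) → Bool) (x y : Fin n → Bool) (i : Fin (2 * n)) :
    (word s x y).getD i.val false = s i := by
  unfold word
  rw [List.getD_eq_getElem?_getD, List.getElem?_append_left (by
    rw [List.length_ofFn]; exact i.isLt), List.getElem?_ofFn]
  simp

theorem word_x (s : Fin (2 * n) → Bool) (x y : Fin n → Bool) (j : Fin n) :
    (word s x y).getD (2 * n + j.val) false = x j := by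
  unfold word
  rw [List.getD_eq_getElem?_getD, List.getElem?_append_right (by
    rw [List.length_ofFn]; omega), List.length_ofFn, Nat.add_sub_cancel_left,
    List.getElem?_append_left (by rw [List.length_ofFn]; exact j.isLt), List.getElem?_ofFn]
  simp

theorem word_y (s : Fin (2 * n) → Bool) (x y : Fin n → Bool) (i : Fin n) :
    (word s x y).getD (3 * n + i.val) false = y i := by
  unfold word
  have e : 3 * n + i.val - 2 * n = n + i.val := by omega
  rw [List.getD_eq_getElem?_getD, List.getElem?_append_right (by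
    rw [List.length_ofFn]; omega), List.length_ofFn, e,
    List.getElem?_append_right (by rw [List.length_ofFn]; omega), List.length_ofFn,
    Nat.add_sub_cancel_left, List.getElem?_ofFn]
  simp

theorem hankel_iff (s : Fin (2 * n) → Bool) (x y : Fin n → Bool) :
    hankel (word s x y) = true ↔ ∀ i : Fin n, y i = true →
      ∏ j : Fin n, sg (s ⟨i.val + j.val, by have := i.isLt; have := j.isLt; omega⟩) (x j) = 1 := by
  unfold hankel
  rw [List.all_eq_true, word_length]
  have key : ∀ i : Fin n, rowOdd (word s x y) i.val = false ↔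
      ∏ j : Fin n, sg (s ⟨i.val + j.val, by have := i.isLt; have := j.isLt; omega⟩) (x j) = 1 := by
    intro i
    unfold rowOdd
    rw [word_length]
    rw [par_iff (fun j => (word s x y).getD (i.val + j) false &&
      (word s x y).getD (2 * n + j) false) n]
    have h1 : ∀ j : Fin n, (if ((word s x y).getD (i.val + j.val) false &&
        (word s x y).getD (2 * n + j.val) false) = true then (-1 : ℝ) else 1) =
        sg (s ⟨i.val + j.val, by have := i.isLt; have := j.isLt; omega⟩) (x j) := by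
      intro j
      rw [word_x]
      have h2 := word_s s x y ⟨i.val + j.val, by have := i.isLt; have := j.isLt; omega⟩
      simp only at h2
      rw [h2]
      rfl
    rw [prod_congr rfl (fun j _ => h1 j)]
  constructor
  · intro h i hi
    rw [← key]
    have h1 := h i.val (List.mem_range.2 i.isLt)
    rw [word_y, hi, Bool.true_and] at h1
    simpa using h1
  · intro h i hi
    rw [List.mem_range] at hi
    have h1 := word_y s x y ⟨i, hi⟩
    simp only at h1
    rw [h1]
    cases hy : y ⟨i, hi⟩ with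
    | false => rfl
    | true =>
      have h2 := (key ⟨i, hi⟩).2 (h ⟨i, hi⟩ hy)
      simp only at h2
      rw [h2]; rfl

/-- The input bits of a circuit: the bits of `s`, of `x` and of `y`. -/
abbrev Pos (n : ℕ) := Fin (2 * n) ⊕ (Fin n ⊕ Fin n)

/-- The input. -/
def inp (s : Fin (2 * n) → Bool) (x y : Fin n → Bool) : Pos n → Bool :=
  Sum.elim s (Sum.elim x y)

/-- The position of the bit `x j`. -/
def px (j : Fin n) : Pos n := .inr (.inl j)

theorem px_inj : Function.Injective (px (n := n)) := by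
  intro i j h
  exact Sum.inl_injective (Sum.inr_injective h)

theorem inp_fill (s : Fin (2 * n) → Bool) (x y : Fin n → Bool) :
    inp s x y = fill px (inp s (fun _ => false) y) x := by
  funext v
  rcases v with v | v | v
  · rw [fill_other]
    · rfl
    · intro i h; exact Sum.inr_ne_inl h
  · exact (fill_apply px_inj _ x v).symm
  · rw [fill_other]
    · rfl
    · intro i h; exact Sum.inl_ne_inr (Sum.inr_injective h)

/-- Arithmetic. -/
theorem arith {k lg r b m μ D : ℕ} (hb : b = 4 * k + 9) (hr : r = n / 2 ^ (2 * b + 1))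
    (hm : m = 128 * (k + 1) ^ 2 + 1) (hD : D = 2 ^ (30 * (k + 1))) (hμ : μ = n / D)
    (h : r ≤ μ + 2 * b + 2 * (lg + 1) * m) : n ≤ D * (lg + 1) := by
  obtain ⟨W, hW⟩ : ∃ W, W = 2 ^ (2 * b + 1) := ⟨_, rfl⟩
  rw [← hW] at hr
  have hWe : W = 2 ^ (8 * k + 19) := by rw [hW, hb]; congr 1; ring
  have hWpos : 1 ≤ W := by rw [hW]; exact Nat.one_le_two_pow
  have h1 : n < W * (r + 1) := by rw [hr]; exact Nat.lt_mul_div_succ n (by omega)
  have h4 : (k + 1) ^ 2 ≤ 4 ^ k := by
    have : k + 1 ≤ 2 ^ k := Nat.lt_two_pow_self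
    calc (k + 1) ^ 2 ≤ (2 ^ k) ^ 2 := Nat.pow_le_pow_left this 2
      _ = 4 ^ k := by rw [← pow_mul, mul_comm k 2, pow_mul]; norm_num
  have hk1 : k + 1 ≤ (k + 1) ^ 2 := by nlinarith
  have h5 : 2 * b + 1 + 2 * m ≤ 300 * 4 ^ k := by
    rw [hb, hm]
    nlinarith
  have h4W : 4 * W ≤ D := by
    rw [hWe, hD]
    calc 4 * 2 ^ (8 * k + 19) = 2 ^ (8 * k + 21) := by
          rw [show 8 * k + 21 = (8 * k + 19) + 2 by ring, pow_add]; norm_num; ring
      _ ≤ _ := Nat.pow_le_pow_right (by norm_num) (by omega)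
  have h6 : 4 * (W * μ) ≤ n := by
    calc 4 * (W * μ) = (4 * W) * μ := by ring
      _ ≤ D * μ := Nat.mul_le_mul_right _ h4W
      _ ≤ n := by rw [hμ]; exact Nat.mul_div_le n D
  have h7 : r + 1 ≤ μ + (300 * 4 ^ k) * (lg + 1) := by
    have h8 : 2 * b + 1 + 2 * (lg + 1) * m ≤ (2 * b + 1 + 2 * m) * (lg + 1) := by nlinarith
    have h9 := Nat.mul_le_mul_right (lg + 1) h5
    omega
  have h8 : n < W * μ + W * ((300 * 4 ^ k) * (lg + 1)) := by
    calc n < W * (r + 1) := h1
      _ ≤ W * (μ + (300 * 4 ^ k) * (lg + 1)) := Nat.mul_le_mul_left _ h7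
      _ = _ := by ring
  have h9 : n ≤ 2 * (W * ((300 * 4 ^ k) * (lg + 1))) := by omega
  calc n ≤ 2 * (W * ((300 * 4 ^ k) * (lg + 1))) := h9
    _ = (600 * (W * 4 ^ k)) * (lg + 1) := by ring
    _ ≤ D * (lg + 1) := by
        apply Nat.mul_le_mul_right
        rw [hWe, hD]
        have e1 : (4 : ℕ) ^ k = 2 ^ (2 * k) := by rw [pow_mul]; norm_num
        rw [e1, ← pow_add]
        calc 600 * 2 ^ (8 * k + 19 + 2 * k) ≤ 2 ^ 10 * 2 ^ (8 * k + 19 + 2 * k) := by
              apply Nat.mul_le_mul_right; norm_num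
          _ = 2 ^ (10 * k + 29) := by rw [← pow_add]; congr 1; ring
          _ ≤ _ := Nat.pow_le_pow_right (by norm_num) (by omega)

theorem final (k n : ℕ) : ∃ (s : Fin (2 * n) → Bool) (y : Fin n → Bool), ∀ U : Circ (Pos n),
    (∀ x, U.Val (inp s x y) U.out → hankel (word s x y) = true) →
    Nat.card {x // hankel (word s x y) = true} ≤
      2 ^ (n / 2 ^ (30 * (k + 1))) * Nat.card {x // U.Val (inp s x y) U.out} →
    (∃ d : U.G → Fin n → ℕ, IsDeg U px d ∧ ∑ j, d U.out j ≤ k * n) →
    n ≤ 2 ^ (30 * (k + 1)) * (Nat.log 2 (Fintype.card U.G) + 1) := by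
  classical
  obtain ⟨D, hD⟩ : ∃ D, D = 2 ^ (30 * (k + 1)) := ⟨_, rfl⟩
  rw [← hD]
  obtain ⟨b, hb⟩ : ∃ b, b = 4 * k + 9 := ⟨_, rfl⟩
  obtain ⟨r, hr⟩ : ∃ r, r = n / 2 ^ (2 * b + 1) := ⟨_, rfl⟩
  have hrn : r ≤ n := by rw [hr]; exact Nat.div_le_self _ _
  obtain ⟨s, hs⟩ := exists_seed (b := b) hrn (by rw [hr]; exact Nat.div_mul_le_self _ _)
  obtain ⟨y, hy⟩ : ∃ y : Fin n → Bool, y = fun i => decide (i.val < r) := ⟨_, rfl⟩
  refine ⟨s, y, fun U hU hc hd => ?_⟩
  rcases Nat.lt_or_ge n D with hnD | hnD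
  · exact hnD.le.trans (Nat.le_mul_of_pos_right _ (by omega))
  obtain ⟨d, hd, hdk⟩ := hd
  have hiff : ∀ x, hankel (word s x y) = true ↔ ∀ i, ∏ j, sg (hk hrn s i j) (x j) = 1 := by
    intro x
    rw [hankel_iff]
    constructor
    · intro h i
      exact h ⟨i.val, by have := i.isLt; omega⟩ (by rw [hy]; simp)
    · intro h i hi
      rw [hy] at hi
      simp only [decide_eq_true_eq] at hi
      exact h ⟨i.val, hi⟩
  obtain ⟨κ, hκ⟩ : ∃ κ, κ = 2 * (k + 1) := ⟨_, rfl⟩
  obtain ⟨m, hm⟩ : ∃ m, m = 128 * (k + 1) ^ 2 + 1 := ⟨_, rfl⟩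
  obtain ⟨n₁, hn₁⟩ : ∃ n₁, n₁ = n / 4 := ⟨_, rfl⟩
  obtain ⟨a, ha⟩ : ∃ a, a = n₁ / (2 * κ) := ⟨_, rfl⟩
  have hDbig : 2 ^ 10 * (k + 1) ≤ D := by
    have h3 : k + 1 ≤ 2 ^ k := Nat.lt_two_pow_self
    calc 2 ^ 10 * (k + 1) ≤ 2 ^ 10 * 2 ^ k := Nat.mul_le_mul_left _ h3
      _ = 2 ^ (10 + k) := (pow_add _ _ _).symm
      _ ≤ D := by rw [hD]; exact Nat.pow_le_pow_right (by norm_num) (by omega)
  have hn10 : 2 ^ 10 * (k + 1) ≤ n := hDbig.trans hnD
  have hn1 : 1 ≤ n := by omega
  have hκ1 : 1 ≤ κ := by omega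
  -- acceptance
  have hones : 2 ^ n ≤ 2 ^ r * Nat.card {x // hankel (word s x y) = true} := by
    have h1 := dual_nat (fun (i : Fin r) (j : Fin n) => hk hrn s i j)
    rw [Fintype.card_fin, Fintype.card_fin] at h1
    have h2 : Nat.card {x // hankel (word s x y) = true} = Nat.card
        {u : Fin n → Bool // ∀ i, ∏ j, sg (hk hrn s i j) (u j) = 1} :=
      Nat.card_congr (Equiv.subtypeEquivRight (fun x => hiff x))
    rw [h2, mul_comm, h1]
    apply Nat.le_mul_of_pos_right
    have : Nonempty {w : Fin r → Bool // ∀ j, ∏ i, sg (w i) (hk hrn s i j) = 1} :=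
      ⟨⟨fun _ => false, fun j => by simp [sg]⟩⟩
    exact Nat.card_pos
  have hacc : 2 ^ n ≤ 2 ^ (r + n / D) * (univ.filter (fun x : Fin n → Bool =>
      U.Val (fill px (inp s (fun _ => false) y) x) U.out)).card := by
    have h2 : Nat.card {x // U.Val (inp s x y) U.out} = (univ.filter (fun x : Fin n → Bool =>
      U.Val (fill px (inp s (fun _ => false) y) x) U.out)).card := by
      rw [Nat.card_eq_fintype_card, Fintype.card_subtype]
      congr 1
      ext x
      rw [mem_filter, mem_filter, inp_fill]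
    rw [← h2, pow_add, mul_assoc]
    refine hones.trans (Nat.mul_le_mul_left _ ?_)
    exact hc
  -- the bits of small degree
  obtain ⟨L, hL⟩ : ∃ L : Finset (Fin n), L = univ.filter (fun e => d U.out e ≤ κ) := ⟨_, rfl⟩
  have hLc : n ≤ 2 * L.card := by
    have h3 : (univ.filter (fun e => ¬ d U.out e ≤ κ)).card * (κ + 1) ≤ k * n := by
      refine le_trans ?_ hdk
      rw [← smul_eq_mul, ← sum_const]
      calc ∑ _e ∈ univ.filter (fun e => ¬ d U.out e ≤ κ), (κ + 1) ≤
          ∑ e ∈ univ.filter (fun e => ¬ d U.out e ≤ κ), d U.out e := by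
            apply sum_le_sum
            intro e he
            have := (mem_filter.1 he).2
            omega
        _ ≤ _ := sum_le_sum_of_subset (subset_univ _)
    have h4 : L.card + (univ.filter (fun e => ¬ d U.out e ≤ κ)).card = n := by
      rw [hL, card_filter_add_card_filter_not, card_univ, Fintype.card_fin]
    obtain ⟨X, hX⟩ : ∃ X, X = (univ.filter (fun e => ¬ d U.out e ≤ κ)).card := ⟨_, rfl⟩
    rw [← hX] at h3 h4
    have h6 : 2 * X ≤ n := by
      have h7 : (2 * X) * (k + 1) ≤ n * (k + 1) := by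
        calc (2 * X) * (k + 1) ≤ X * (κ + 1) := by rw [hκ]; nlinarith
          _ ≤ k * n := h3
          _ ≤ _ := by nlinarith
      exact Nat.le_of_mul_le_mul_right h7 (by omega)
    omega
  obtain ⟨e₀, he₀⟩ : ∃ e₀ : Fin n₁ ⊕ Fin n₁ ↪ Fin n, ∀ i, e₀ i ∈ L := by
    have h3 : Fintype.card (Fin n₁ ⊕ Fin n₁) ≤ Fintype.card L := by
      rw [Fintype.card_sum, Fintype.card_fin, Fintype.card_coe]
      omega
    obtain ⟨g⟩ := Function.Embedding.nonempty_of_card_le h3
    exact ⟨g.trans (Function.Embedding.subtype _), fun i => (g i).2⟩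
  have hn₁κ : 2 * κ ≤ n₁ := by omega
  have ha1 : 1 ≤ a := by
    rw [ha]
    exact (Nat.one_le_div_iff (by omega)).2 hn₁κ
  have haκ : 2 * κ * a ≤ n₁ := by rw [ha]; exact Nat.mul_div_le _ _
  have hna : n₁ < 2 * κ * (a + 1) := by rw [ha]; exact Nat.lt_mul_div_succ n₁ (by omega)
  have hfin := count px_inj (inp s (fun _ => false) y) hd (m := m) (a := a) (κ := κ)
    (μ := n / D) (b := b) (c := 3) (r := r) e₀
    (fun i => by
      have := he₀ i
      rw [hL, mem_filter] at this
      exact this.2) ha1 (by linarith) (by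
      have h3 : n₁ ≤ 4 * κ * a := by nlinarith
      calc a + 8 * (n₁ * κ) ≤ a + 8 * ((4 * κ * a) * κ) := by gcongr
        _ = a * m := by rw [hm, hκ]; ring) (by omega) (by omega) (by rw [hb, hκ]; ring)
    (fun i j => hk hrn s i j) hs
    (fun x hx => by
      rw [← inp_fill] at hx
      exact (hiff x).1 (hU x hx)) hacc
  have h3 : 2 ^ r ≤ 2 ^ (n / D + 2 * b + 2 * (Nat.log 2 (Fintype.card U.G) + 1) * m) := by
    refine hfin.trans ?_
    rw [pow_add 2 (n / D + 2 * b), pow_mul 2 (2 * (Nat.log 2 (Fintype.card U.G) + 1))]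
    exact Nat.mul_le_mul_left _ (Nat.pow_le_pow_left (piece_card U) _)
  have h4 := (Nat.pow_le_pow_iff_right (by norm_num)).1 h3
  exact arith hb hr hm hD rfl h4

end Pool.Agent.W896.HK
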